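import Pool.Agent.Helper23.MT.Goals

set_option autoImplicit false

namespace Pool.Agent.Helper49.MT

open Pool.Agent.Helper23.MT

theorem cst_le (k : ℕ) (z : ℤ) : cst k z ≤ 5 := by
  induction k generalizing z with
  | zero => simp [cst]
  | succ k ih =>
    have h := ih (U z)
    unfold cst
    split_ifs <;> omega

theorem surv_mod {k : ℕ} {z : ℤ} (h : Surv (k + 1) z) : z % 3 ≠ 1 := h 0 (by omega)

theorem surv_U {k : ℕ} {z : ℤ} (h : Surv (k + 1) z) : Surv k (U z) := by
  intro i hi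
  have := h (i + 1) (by omega)
  rwa [Function.iterate_succ_apply] at this

theorem cst_succ (k : ℕ) (z : ℤ) : cst (k + 1) z =
    if z % 3 = 2 then 0 else if cst k (U z) = 5 then 0 else cst k (U z) + 1 := rfl

theorem ones_succ (k : ℕ) (z : ℤ) : ones (k + 1) z =
    if z % 3 = 2 then ones k (U z) + 1 else ones k (U z) := rfl

theorem wraps_succ (k : ℕ) (z : ℤ) : wraps (k + 1) z =
    if z % 3 = 2 then wraps k (U z)
      else if cst k (U z) = 5 then wraps k (U z) + 1 else wraps k (U z) := rfl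

/-- the weight -/
noncomputable def wt (W P : ℝ) (k : ℕ) (z : ℤ) : ℝ := W ^ (ones k z) * P ^ (wraps k z)

theorem wt_nonneg {W P : ℝ} (hW : 0 ≤ W) (hP : 0 ≤ P) (k : ℕ) (z : ℤ) : 0 ≤ wt W P k z :=
  mul_nonneg (pow_nonneg hW _) (pow_nonneg hP _)

/-- separation at level `k` -/
def Sep (k : ℕ) (A : Finset ℤ) : Prop :=
  ∀ z ∈ A, ∀ z' ∈ A, (3 : ℤ) ^ k ∣ z - z' → z = z'

/-- the class sums -/
noncomputable def cs (W P : ℝ) (k : ℕ) (c : ℕ) (A : Finset ℤ) : ℝ :=
  ∑ z ∈ A, if cst k z = c then wt W P k z else 0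

theorem sum_eq_cs (W P : ℝ) (k : ℕ) (A : Finset ℤ) :
    ∑ z ∈ A, wt W P k z = ∑ c ∈ Finset.range 6, cs W P k c A := by
  unfold cs
  rw [Finset.sum_comm]
  refine Finset.sum_congr rfl fun z _ => ?_
  rw [Finset.sum_ite_eq, if_pos]
  rw [Finset.mem_range]
  have := cst_le k z
  omega

theorem sep_zero {k : ℕ} {A : Finset ℤ} (hA : Sep (k + 1) A) :
    Sep k ((A.filter (fun z => z % 3 = 0)).image U) := by
  intro y hy y' hy' hd
  rw [Finset.mem_image] at hy hy'
  obtain ⟨z, hz, rfl⟩ := hy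
  obtain ⟨z', hz', rfl⟩ := hy'
  rw [Finset.mem_filter] at hz hz'
  have h1 := U_zero_mod hz.2
  have h2 := U_zero_mod hz'.2
  have h3 : (3 : ℤ) ^ (k + 1) ∣ z - z' := by
    have : z - z' = 3 * (U z - U z') := by rw [mul_sub, h1, h2]
    rw [this, pow_succ']
    exact mul_dvd_mul_left _ hd
  rw [hA z hz.1 z' hz'.1 h3]

theorem sep_two {k : ℕ} {A : Finset ℤ} (hA : Sep (k + 1) A) :
    Sep k ((A.filter (fun z => z % 3 = 2)).image U) := by
  intro y hy y' hy' hd
  rw [Finset.mem_image] at hy hy'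
  obtain ⟨z, hz, rfl⟩ := hy
  obtain ⟨z', hz', rfl⟩ := hy'
  rw [Finset.mem_filter] at hz hz'
  have h1 := U_two_mod hz.2
  have h2 := U_two_mod hz'.2
  have h3 : (3 : ℤ) ^ (k + 1) ∣ 7 * (z - z') := by
    have : 7 * (z - z') = 3 * (U z - U z') := by rw [mul_sub, mul_sub, h1, h2]; ring
    rw [this, pow_succ']
    exact mul_dvd_mul_left _ hd
  have h4 : IsCoprime ((3 : ℤ) ^ (k + 1)) 7 := by
    apply IsCoprime.pow_left
    exact ⟨-2, 1, by norm_num⟩
  rw [hA z hz.1 z' hz'.1 (h4.dvd_of_dvd_mul_left h3)]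

theorem inj_zero {A : Finset ℤ} : Set.InjOn U (A.filter (fun z => z % 3 = 0) : Finset ℤ) := by
  intro z hz z' hz' h
  rw [Finset.mem_coe, Finset.mem_filter] at hz hz'
  have h1 := U_zero_mod hz.2
  have h2 := U_zero_mod hz'.2
  rw [← h1, ← h2, h]

theorem inj_two {A : Finset ℤ} : Set.InjOn U (A.filter (fun z => z % 3 = 2) : Finset ℤ) := by
  intro z hz z' hz' h
  rw [Finset.mem_coe, Finset.mem_filter] at hz hz'
  have h1 := U_two_mod hz.2
  have h2 := U_two_mod hz'.2
  rw [h] at h1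
  omega

theorem split_sum {k : ℕ} {A : Finset ℤ} (hA : ∀ z ∈ A, Surv (k + 1) z) (f : ℤ → ℝ) :
    ∑ z ∈ A, f z = ∑ z ∈ A.filter (fun z => z % 3 = 0), f z
      + ∑ z ∈ A.filter (fun z => z % 3 = 2), f z := by
  rw [Finset.sum_filter, Finset.sum_filter, ← Finset.sum_add_distrib]
  refine Finset.sum_congr rfl fun z hz => ?_
  have h := surv_mod (hA z hz)
  rcases (by omega : z % 3 = 0 ∨ z % 3 = 2) with h0 | h0
  · rw [if_pos h0, if_neg (by omega), add_zero]
  · rw [if_neg (by omega), if_pos h0, zero_add]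

theorem cs_zero_succ (W P : ℝ) {k : ℕ} {A : Finset ℤ} (hA : ∀ z ∈ A, Surv (k + 1) z) :
    cs W P (k + 1) 0 A = P * cs W P k 5 ((A.filter (fun z => z % 3 = 0)).image U)
      + W * ∑ y ∈ (A.filter (fun z => z % 3 = 2)).image U, wt W P k y := by
  unfold cs
  rw [split_sum hA, Finset.sum_image inj_zero, Finset.sum_image inj_two, Finset.mul_sum,
    Finset.mul_sum]
  congr 1
  · refine Finset.sum_congr rfl fun z hz => ?_
    rw [Finset.mem_filter] at hz
    have h2 : ¬ z % 3 = 2 := by omega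
    unfold wt
    rw [cst_succ, ones_succ, wraps_succ, if_neg h2, if_neg h2, if_neg h2]
    by_cases h5 : cst k (U z) = 5
    · rw [if_pos h5, if_pos h5, if_pos h5, if_pos rfl]
      ring
    · rw [if_neg h5, if_neg h5, if_neg h5, if_neg (by omega), mul_zero]
  · refine Finset.sum_congr rfl fun z hz => ?_
    rw [Finset.mem_filter] at hz
    unfold wt
    rw [cst_succ, ones_succ, wraps_succ, if_pos hz.2, if_pos hz.2, if_pos hz.2, if_pos rfl]
    ring

theorem cs_succ_succ (W P : ℝ) {k c : ℕ} (hc : c < 5) {A : Finset ℤ}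
    (hA : ∀ z ∈ A, Surv (k + 1) z) :
    cs W P (k + 1) (c + 1) A = cs W P k c ((A.filter (fun z => z % 3 = 0)).image U) := by
  unfold cs
  rw [split_sum hA, Finset.sum_image inj_zero]
  have h0 : ∑ z ∈ A.filter (fun z => z % 3 = 2),
      (if cst (k + 1) z = c + 1 then wt W P (k + 1) z else 0) = 0 := by
    refine Finset.sum_eq_zero fun z hz => ?_
    rw [Finset.mem_filter] at hz
    rw [cst_succ, if_pos hz.2, if_neg (by omega)]
  rw [h0, add_zero]
  refine Finset.sum_congr rfl fun z hz => ?_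
  rw [Finset.mem_filter] at hz
  have h2 : ¬ z % 3 = 2 := by omega
  unfold wt
  rw [cst_succ, ones_succ, wraps_succ, if_neg h2, if_neg h2, if_neg h2]
  by_cases h5 : cst k (U z) = 5
  · rw [if_pos h5, if_neg (by omega), if_neg (by omega)]
  · rw [if_neg h5, if_neg h5]
    by_cases h : cst k (U z) = c
    · rw [if_pos h, if_pos (by omega)]
    · rw [if_neg h, if_neg (by omega)]

theorem cs_le {W P x : ℝ} (hW : 0 ≤ W) (hP : 0 ≤ P) (hx : 0 < x)
    (h : x * W * (1 + x + x ^ 2 + x ^ 3 + x ^ 4 + x ^ 5) + P * x ^ 6 ≤ 1)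
    (k : ℕ) : ∀ (A : Finset ℤ), (∀ z ∈ A, Surv k z) → Sep k A →
      ∀ c ≤ 5, cs W P k c A ≤ (1 / x) ^ k * x ^ c := by
  induction k with
  | zero =>
    intro A _ hS c _
    have h1 : A.card ≤ 1 := by
      rw [Finset.card_le_one]
      intro a ha b hb
      exact hS a ha b hb (by rw [pow_zero]; exact one_dvd _)
    unfold cs
    rcases Nat.eq_zero_or_pos c with rfl | hc
    · have h2 : ∀ z ∈ A, (if cst 0 z = 0 then wt W P 0 z else 0) = 1 := by
        intro z _
        simp [cst, wt, ones, wraps]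
      rw [Finset.sum_congr rfl h2, Finset.sum_const, nsmul_eq_mul, mul_one, pow_zero, pow_zero,
        mul_one]
      exact_mod_cast h1
    · have h2 : ∀ z ∈ A, (if cst 0 z = c then wt W P 0 z else 0) = 0 := by
        intro z _
        rw [if_neg]
        unfold cst
        omega
      rw [Finset.sum_eq_zero h2]
      positivity
  | succ k ih =>
    intro A hA hS c hc
    have hB0 : ∀ z ∈ (A.filter (fun z => z % 3 = 0)).image U, Surv k z := by
      intro y hy
      rw [Finset.mem_image] at hy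
      obtain ⟨z, hz, rfl⟩ := hy
      exact surv_U (hA z (Finset.mem_filter.1 hz).1)
    have hB2 : ∀ z ∈ (A.filter (fun z => z % 3 = 2)).image U, Surv k z := by
      intro y hy
      rw [Finset.mem_image] at hy
      obtain ⟨z, hz, rfl⟩ := hy
      exact surv_U (hA z (Finset.mem_filter.1 hz).1)
    have i0 := ih _ hB0 (sep_zero hS)
    have i2 := ih _ hB2 (sep_two hS)
    rcases Nat.eq_zero_or_pos c with rfl | hc0
    · rw [cs_zero_succ W P hA, sum_eq_cs]
      have h5 := i0 5 le_rfl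
      have h6 : ∑ c ∈ Finset.range 6, cs W P k c ((A.filter (fun z => z % 3 = 2)).image U)
          ≤ ∑ c ∈ Finset.range 6, (1 / x) ^ k * x ^ c := by
        refine Finset.sum_le_sum fun c hc => i2 c ?_
        have := Finset.mem_range.1 hc
        omega
      have h7 : ∑ c ∈ Finset.range 6, (1 / x) ^ k * x ^ c
          = (1 / x) ^ k * (1 + x + x ^ 2 + x ^ 3 + x ^ 4 + x ^ 5) := by
        simp only [Finset.sum_range_succ, Finset.sum_range_zero]
        ring
      rw [h7] at h6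
      have h8 : W * (1 + x + x ^ 2 + x ^ 3 + x ^ 4 + x ^ 5) + P * x ^ 5 ≤ 1 / x := by
        rw [le_div_iff₀ hx]
        linarith
      have hk : 0 ≤ (1 / x) ^ k := by positivity
      calc P * cs W P k 5 ((A.filter (fun z => z % 3 = 0)).image U)
            + W * ∑ c ∈ Finset.range 6, cs W P k c ((A.filter (fun z => z % 3 = 2)).image U)
          ≤ P * ((1 / x) ^ k * x ^ 5)
            + W * ((1 / x) ^ k * (1 + x + x ^ 2 + x ^ 3 + x ^ 4 + x ^ 5)) :=
            add_le_add (mul_le_mul_of_nonneg_left h5 hP) (mul_le_mul_of_nonneg_left h6 hW)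
        _ = (1 / x) ^ k * (W * (1 + x + x ^ 2 + x ^ 3 + x ^ 4 + x ^ 5) + P * x ^ 5) := by ring
        _ ≤ (1 / x) ^ k * (1 / x) := mul_le_mul_of_nonneg_left h8 hk
        _ = (1 / x) ^ (k + 1) * x ^ 0 := by rw [pow_succ, pow_zero, mul_one]
    · obtain ⟨d, rfl⟩ : ∃ d, c = d + 1 := ⟨c - 1, by omega⟩
      rw [cs_succ_succ W P (by omega) hA]
      refine (i0 d (by omega)).trans (le_of_eq ?_)
      rw [pow_succ (1 / x), pow_succ x]
      field_simp

theorem gCOUNT : GCOUNT := by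
  intro W P x hW hP hx hx1 h k A hA hS
  have h1 : ∑ z ∈ A, W ^ (ones k z) * P ^ (wraps k z) = ∑ z ∈ A, wt W P k z := rfl
  rw [h1, sum_eq_cs]
  have h2 : ∀ c ∈ Finset.range 6, cs W P k c A ≤ (1 / x) ^ k := by
    intro c hc
    have hc' := Finset.mem_range.1 hc
    refine (cs_le hW hP hx h k A hA hS c (by omega)).trans ?_
    have h3 : x ^ c ≤ 1 := pow_le_one₀ hx.le hx1.le
    have h4 : 0 ≤ (1 / x) ^ k := by positivity
    nlinarith
  refine (Finset.sum_le_sum h2).trans ?_
  rw [Finset.sum_const, Finset.card_range, nsmul_eq_mul]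
  norm_num

end Pool.Agent.Helper49.MT
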